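import Mathlib
import Pool.Agent.Y866.EC.Stm

/-!
# Number of linear automorphisms fixing a subspace pointwise (project EC of helper866, EC-CARD)
-/

set_option autoImplicit false
set_option linter.unusedSectionVars false

open Finset

namespace Pool.Agent.Y555.EC

open Pool.Agent.Y866.EC

variable {F V : Type} [Field F] [Fintype F] [AddCommGroup V] [Module F V] [Finite V]

/-- the endomorphism `1 + φ ∘ mk` -/
def plus (Z : Submodule F V) (φ : (V ⧸ Z) →ₗ[F] V) : V →ₗ[F] V :=
  LinearMap.id + φ.comp Z.mkQ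

omit [Fintype F] [Finite V] in
theorem plus_apply (Z : Submodule F V) (φ : (V ⧸ Z) →ₗ[F] V) (v : V) :
    plus Z φ v = v + φ (Z.mkQ v) := by
  simp [plus]

omit [Fintype F] [Finite V] in
theorem plus_inj (Z : Submodule F V) : Function.Injective (plus Z) := by
  intro φ ψ h
  refine Submodule.linearMap_qext _ ?_
  ext v
  have := congrArg (fun f : V →ₗ[F] V => f v) h
  simpa [plus_apply] using this

omit [Fintype F] in
instance finH (Z : Submodule F V) : Finite ((V ⧸ Z) →ₗ[F] V) :=
  haveI : Finite (V ⧸ Z) := Finite.of_surjective _ Z.mkQ_surjective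
  Finite.of_injective (fun f : (V ⧸ Z) →ₗ[F] V => (f : (V ⧸ Z) → V)) DFunLike.coe_injective

omit [Fintype F] in
instance finE : Finite (V ≃ₗ[F] V) :=
  Finite.of_injective (fun f : V ≃ₗ[F] V => (f : V → V)) DFunLike.coe_injective

theorem card_H (Z : Submodule F V) : Nat.card ((V ⧸ Z) →ₗ[F] V) =
    Fintype.card F ^ (Module.finrank F (V ⧸ Z) * Module.finrank F V) := by
  rw [Module.natCard_eq_pow_finrank (K := F), Module.finrank_linearMap, Nat.card_eq_fintype_card]

theorem upper (Z : Submodule F V) : Nat.card (FixS Z) ≤ Nat.card ((V ⧸ Z) →ₗ[F] V) := by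
  refine Nat.card_le_card_of_injective (fun g : FixS Z =>
    Z.liftQ ((g : V ≃ₗ[F] V).toLinearMap - LinearMap.id) ?_) ?_
  · intro v hv
    have := g.2 v hv
    simp [LinearMap.mem_ker, this]
  · intro g g' h
    ext v
    have := congrArg (fun f : (V ⧸ Z) →ₗ[F] V => f (Z.mkQ v)) h
    simpa using this

open Classical in
theorem lower (Z : Submodule F V) [Fintype ((V ⧸ Z) →ₗ[F] V)] :
    (univ.filter fun φ : (V ⧸ Z) →ₗ[F] V => Function.Injective (plus Z φ)).card
      ≤ Nat.card (FixS Z) := by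
  rw [← Fintype.card_subtype, ← Nat.card_eq_fintype_card]
  refine Nat.card_le_card_of_injective
    (fun φ : {φ : (V ⧸ Z) →ₗ[F] V // Function.Injective (plus Z φ)} =>
      (⟨LinearEquiv.ofInjectiveEndo (plus Z φ.1) φ.2, by
        intro v hv
        have : Z.mkQ v = 0 := by simpa using hv
        rw [LinearEquiv.coe_ofInjectiveEndo, plus_apply, this, map_zero, add_zero]⟩ : FixS Z)) ?_
  · intro φ ψ h
    apply Subtype.ext
    apply plus_inj Z
    ext v
    have := congrArg (fun g : FixS Z => (g : V ≃ₗ[F] V) v) h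
    simpa using this

open Classical in
/-- the fibres of the evaluation at a nonzero vector -/
theorem fibre (Z : Submodule F V) [Fintype V] [Fintype ((V ⧸ Z) →ₗ[F] V)] (w : V ⧸ Z)
    (hw : w ≠ 0) (u : V) :
    Fintype.card V * (univ.filter fun φ : (V ⧸ Z) →ₗ[F] V => φ w = u).card
      = Fintype.card ((V ⧸ Z) →ₗ[F] V) := by
  have hex : ∀ u : V, ∃ φ : (V ⧸ Z) →ₗ[F] V, φ w = u := by
    intro u
    obtain ⟨f, hf⟩ : ∃ f : Module.Dual F (V ⧸ Z), f w ≠ 0 := by
      by_contra hcon
      push Not at hcon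
      exact hw ((Module.forall_dual_apply_eq_zero_iff F w).1 hcon)
    exact ⟨((f w)⁻¹ • f).smulRight u, by simp [inv_mul_cancel₀ hf]⟩
  have hcard : ∀ u' : V, (univ.filter fun φ : (V ⧸ Z) →ₗ[F] V => φ w = u').card
      = (univ.filter fun φ : (V ⧸ Z) →ₗ[F] V => φ w = u).card := by
    intro u'
    obtain ⟨a, ha⟩ := hex (u - u')
    refine Finset.card_bij (fun φ _ => φ + a) ?_ ?_ ?_
    · intro φ hφ
      simp only [Finset.mem_filter, Finset.mem_univ, true_and] at hφ ⊢
      simp [hφ, ha]
    · intro φ _ ψ _ h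
      exact add_right_cancel h
    · intro ψ hψ
      simp only [Finset.mem_filter, Finset.mem_univ, true_and] at hψ
      exact ⟨ψ - a, by simp [hψ, ha], by simp⟩
  have h1 : ∑ u' : V, (univ.filter fun φ : (V ⧸ Z) →ₗ[F] V => φ w = u').card
      = Fintype.card ((V ⧸ Z) →ₗ[F] V) := by
    rw [← Finset.card_univ (α := (V ⧸ Z) →ₗ[F] V)]
    exact (Finset.card_eq_sum_card_fiberwise (f := fun φ : (V ⧸ Z) →ₗ[F] V => φ w)
      (t := univ) (fun _ _ => by simp)).symm
  rw [← h1, Finset.sum_congr rfl (fun u' _ => hcard u')]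
  simp

open Classical in
theorem noninj (Z : Submodule F V) [Fintype V] [Fintype ((V ⧸ Z) →ₗ[F] V)] :
    (Fintype.card F - 1) *
      (univ.filter fun φ : (V ⧸ Z) →ₗ[F] V => ¬ Function.Injective (plus Z φ)).card
      ≤ Fintype.card ((V ⧸ Z) →ₗ[F] V) := by
  -- pairs
  have h1 : (Fintype.card F - 1) *
      (univ.filter fun φ : (V ⧸ Z) →ₗ[F] V => ¬ Function.Injective (plus Z φ)).card
      ≤ ∑ φ : (V ⧸ Z) →ₗ[F] V, (univ.filter fun v : V => v ≠ 0 ∧ plus Z φ v = 0).card := by
    rw [mul_comm, ← smul_eq_mul, ← Finset.sum_const]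
    refine le_trans (Finset.sum_le_sum fun φ hφ => ?_)
      (Finset.sum_le_sum_of_subset (Finset.filter_subset _ _))
    simp only [Finset.mem_filter, Finset.mem_univ, true_and] at hφ
    obtain ⟨v, hv0, hv⟩ : ∃ v : V, plus Z φ v = 0 ∧ v ≠ 0 := by
      by_contra hcon
      push Not at hcon
      exact hφ ((injective_iff_map_eq_zero _).2 hcon)
    have hq : Fintype.card F - 1 = (univ.filter fun c : F => c ≠ 0).card := by
      rw [Finset.filter_ne' univ (0 : F), Finset.card_erase_of_mem (Finset.mem_univ _),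
        Finset.card_univ]
    rw [hq]
    refine Finset.card_le_card_of_injOn (fun c => c • v) ?_ ?_
    · intro c hc
      simp only [Finset.coe_filter, Finset.mem_univ, true_and, Set.mem_ofPred_eq] at hc
      simp only [Finset.coe_filter, Finset.mem_univ, true_and, Set.mem_ofPred_eq]
      exact ⟨smul_ne_zero hc hv, by rw [map_smul, hv0, smul_zero]⟩
    · intro c _ c' _ h
      exact smul_left_injective F hv h
  have h2 : ∑ φ : (V ⧸ Z) →ₗ[F] V, (univ.filter fun v : V => v ≠ 0 ∧ plus Z φ v = 0).card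
      = ∑ v : V, (univ.filter fun φ : (V ⧸ Z) →ₗ[F] V => v ≠ 0 ∧ plus Z φ v = 0).card := by
    simp only [Finset.card_filter]
    exact Finset.sum_comm
  have h3 : Fintype.card V * ∑ v : V, (univ.filter fun φ : (V ⧸ Z) →ₗ[F] V => v ≠ 0 ∧ plus Z φ v = 0).card
      ≤ Fintype.card V * Fintype.card ((V ⧸ Z) →ₗ[F] V) := by
    rw [Finset.mul_sum]
    calc ∑ v : V, Fintype.card V * (univ.filter fun φ : (V ⧸ Z) →ₗ[F] V => v ≠ 0 ∧ plus Z φ v = 0).card
        ≤ ∑ _v : V, Fintype.card ((V ⧸ Z) →ₗ[F] V) := by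
          refine Finset.sum_le_sum fun v _ => ?_
          by_cases hv : v = 0
          · simp [hv]
          by_cases hm : Z.mkQ v = 0
          · have : (univ.filter fun φ : (V ⧸ Z) →ₗ[F] V => v ≠ 0 ∧ plus Z φ v = 0) = ∅ := by
              apply Finset.filter_eq_empty_iff.2
              rintro φ _ ⟨_, h⟩
              rw [plus_apply, hm, map_zero, add_zero] at h
              exact hv h
            rw [this]
            simp
          · have : (univ.filter fun φ : (V ⧸ Z) →ₗ[F] V => v ≠ 0 ∧ plus Z φ v = 0)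
                = univ.filter fun φ : (V ⧸ Z) →ₗ[F] V => φ (Z.mkQ v) = -v := by
              apply Finset.filter_congr
              intro φ _
              rw [plus_apply, add_comm, add_eq_zero_iff_eq_neg]
              exact ⟨fun h => h.2, fun h => ⟨hv, h⟩⟩
            rw [this]
            exact (fibre Z (Z.mkQ v) hm (-v)).le
      _ = Fintype.card V * Fintype.card ((V ⧸ Z) →ₗ[F] V) := by simp
  have hV : 0 < Fintype.card V := Fintype.card_pos
  exact le_trans (h1.trans h2.le) (Nat.le_of_mul_le_mul_left h3 hV)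

theorem t_card : S_CARD := by
  classical
  intro F V _ _ _ _ _ Z
  have : Fintype V := Fintype.ofFinite V
  have : Fintype ((V ⧸ Z) →ₗ[F] V) := Fintype.ofFinite _
  have hc := card_H Z
  have hH : Fintype.card ((V ⧸ Z) →ₗ[F] V)
      = Fintype.card F ^ (Module.finrank F (V ⧸ Z) * Module.finrank F V) := by
    rw [← hc, Nat.card_eq_fintype_card]
  refine ⟨hc ▸ upper Z, ?_⟩
  rw [← hH]
  have h1 := lower Z
  have h2 := noninj Z
  have h3 : (univ.filter fun φ : (V ⧸ Z) →ₗ[F] V => Function.Injective (plus Z φ)).card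
      + (univ.filter fun φ : (V ⧸ Z) →ₗ[F] V => ¬ Function.Injective (plus Z φ)).card
      = Fintype.card ((V ⧸ Z) →ₗ[F] V) := by
    rw [Finset.card_filter_add_card_filter_not, Finset.card_univ]
  have hq : 2 ≤ Fintype.card F := Fintype.one_lt_card
  obtain ⟨r, hr⟩ := Nat.exists_eq_add_of_le hq
  have e1 : Fintype.card F - 2 = r := by omega
  have e2 : Fintype.card F - 1 = r + 1 := by omega
  rw [e1, e2]
  rw [e2] at h2
  have h4 := congrArg (fun t => (r + 1) * t) h3
  have h5 := Nat.mul_le_mul_left (r + 1) h1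
  rw [mul_add] at h4
  have h6 : (r + 1) * Fintype.card ((V ⧸ Z) →ₗ[F] V)
      = r * Fintype.card ((V ⧸ Z) →ₗ[F] V) + Fintype.card ((V ⧸ Z) →ₗ[F] V) := by ring
  rw [h6] at h4
  have h2' : (r + 1) *
      (univ.filter fun φ : (V ⧸ Z) →ₗ[F] V => ¬ Function.Injective (plus Z φ)).card
      ≤ Fintype.card ((V ⧸ Z) →ₗ[F] V) := by convert h2
  have h5' : (r + 1) *
      (univ.filter fun φ : (V ⧸ Z) →ₗ[F] V => Function.Injective (plus Z φ)).card
      ≤ (r + 1) * Nat.card (FixS Z) := by convert h5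
  omega

end Pool.Agent.Y555.EC
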